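import Pool.Agent.helper25.TW.Spec

set_option autoImplicit false

namespace TP.TW

open DP MeasureTheory Finset

/-- sites which can be reached from the side `P` by a path in `R` with at most `j` bricks of colour `k` -/
def MEN_A (R : Set V) (P : V → Prop) (c : V → Bool) (k : Bool) (j : ℕ) : Set V :=
  {z | ∃ (W : Set V) (u : V) (B : Finset V), W ⊆ R ∧ P u ∧ Con W u z ∧ B.card ≤ j ∧
    ∀ w ∈ W, c w = k → br w ∈ B}

/-- the layer `j` -/
def MEN_L (R : Set V) (P : V → Prop) (c : V → Bool) (k : Bool) (j : ℕ) : Set V :=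
  {z | z ∈ R ∧ c z = k ∧ z ∉ MEN_A R P c k j ∧ (P z ∨ ∃ y ∈ MEN_A R P c k j, Adj y z)}

theorem MEN_mono (R : Set V) (P : V → Prop) (c : V → Bool) (k : Bool) (i j : ℕ) (hij : i ≤ j) :
    MEN_A R P c k i ⊆ MEN_A R P c k j := by
  rintro z ⟨W, u, B, h1, h2, h3, h4, h5⟩
  exact ⟨W, u, B, h1, h2, h3, h4.trans hij, h5⟩

theorem MEN_step0 (R : Set V) (P : V → Prop) (c : V → Bool) (k : Bool) (j : ℕ) (z z' : V)
    (hz : z ∈ MEN_A R P c k j) (hadj : Adj z z') (hz' : z' ∈ R) (hc : c z' ≠ k) :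
    z' ∈ MEN_A R P c k j := by
  obtain ⟨W, u, B, h1, h2, h3, h4, h5⟩ := hz
  refine ⟨insert z' W, u, B, ?_, h2, ?_, h4, ?_⟩
  · intro w hw
    rcases Set.mem_insert_iff.mp hw with rfl | hw
    · exact hz'
    · exact h1 hw
  · exact (h3.mono (Set.subset_insert z' W)).tail hadj (Set.mem_insert z' W)
  · intro w hw hwc
    rcases Set.mem_insert_iff.mp hw with rfl | hw
    · exact absurd hwc hc
    · exact h5 w hw hwc

theorem MEN_step1 (R : Set V) (P : V → Prop) (c : V → Bool) (k : Bool) (i : ℕ) (z : V)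
    (hz : z ∈ MEN_L R P c k i) : ∃ (W : Set V) (u : V) (B : Finset V), W ⊆ R ∧ P u ∧ Con W u z ∧
      B.card ≤ i + 1 ∧ (∀ w ∈ W, c w = k → br w ∈ B) ∧ br z ∈ B := by
  classical
  obtain ⟨hzR, hzc, hzA, h | ⟨y, ⟨W, u, B, h1, h2, h3, h4, h5⟩, hadj⟩⟩ := hz
  · refine ⟨{z}, z, {br z}, ?_, h, DP.Con.refl (Set.mem_singleton _), ?_, ?_, ?_⟩
    · intro w hw
      rw [Set.mem_singleton_iff.mp hw]
      exact hzR
    · rw [Finset.card_singleton]
      omega
    · intro w hw _
      rw [Set.mem_singleton_iff.mp hw]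
      exact Finset.mem_singleton_self _
    · exact Finset.mem_singleton_self _
  · refine ⟨insert z W, u, insert (br z) B, ?_, h2, ?_, ?_, ?_, ?_⟩
    · intro w hw
      rcases Set.mem_insert_iff.mp hw with rfl | hw
      · exact hzR
      · exact h1 hw
    · exact (h3.mono (Set.subset_insert z W)).tail hadj (Set.mem_insert z W)
    · exact (Finset.card_insert_le _ _).trans (by omega)
    · intro w hw hwc
      rcases Set.mem_insert_iff.mp hw with rfl | hw
      · exact Finset.mem_insert_self _ _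
      · exact Finset.mem_insert_of_mem (h5 w hw hwc)
    · exact Finset.mem_insert_self _ _

theorem MEN_bdis (R : Set V) (P : V → Prop) (c : V → Bool) (k : Bool) (i j : ℕ) (hij : i < j) :
    BDis (MEN_L R P c k i) (MEN_L R P c k j) := by
  intro z hz z' hz' hbr
  obtain ⟨W, u, B, h1, h2, h3, h4, h5, h6⟩ := MEN_step1 R P c k i z hz
  obtain ⟨hz'R, hz'c, hz'A, -⟩ := hz'
  apply hz'A
  apply MEN_mono R P c k (i + 1) j hij
  by_cases hzz : z = z'
  · rw [← hzz]
    exact ⟨W, u, B, h1, h2, h3, h4, h5⟩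
  · refine ⟨insert z' W, u, B, ?_, h2, ?_, h4, ?_⟩
    · intro w hw
      rcases Set.mem_insert_iff.mp hw with rfl | hw
      · exact hz'R
      · exact h1 hw
    · exact (h3.mono (Set.subset_insert z' W)).tail (br_adj hbr hzz) (Set.mem_insert z' W)
    · intro w hw hwc
      rcases Set.mem_insert_iff.mp hw with rfl | hw
      · rw [← hbr]
        exact h6
      · exact h5 w hw hwc

theorem MEN_gen (R : Set V) (P Q P' Q' : V → Prop) (c : V → Bool) (k : Bool) (K : ℕ)
    (hex : ∀ c' : V → Bool, (∃ u v, P u ∧ Q v ∧ Conn c' false R u v) ∨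
      (∃ u v, P' u ∧ Q' v ∧ Conn c' true R u v)) :
    (∃ (W : Set V) (u v : V), W ⊆ R ∧ Con W u v ∧ (P u ∧ Q v) ∧
      ∃ B : Finset V, B.card ≤ K ∧ ∀ w ∈ W, c w = k → br w ∈ B) ∨
    (∃ L : ℕ → Set V, (∀ i < K + 1, ∃ u v, (P' u ∧ Q' v) ∧ Conn c k (R ∩ L i) u v) ∧
      ∀ i < K + 1, ∀ j < K + 1, i ≠ j → BDis (L i) (L j)) := by
  classical
  by_cases hK : ∃ z ∈ MEN_A R P c k K, Q z
  · left
    obtain ⟨z, ⟨W, u, B, h1, h2, h3, h4, h5⟩, hQ⟩ := hK
    exact ⟨W, u, z, h1, h3, ⟨h2, hQ⟩, B, h4, h5⟩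
  · right
    refine ⟨MEN_L R P c k, ?_, ?_⟩
    · intro j hj
      rcases hex (fun z => decide (z ∈ MEN_L R P c k j)) with ⟨u, v, hPu, hQv, hcon⟩ |
          ⟨u, v, hPu, hQv, hcon⟩
      · exfalso
        apply hK
        refine ⟨v, MEN_mono R P c k j K (by omega) ?_, hQv⟩
        have hnot : ∀ w, w ∈ {w | w ∈ R ∧ decide (w ∈ MEN_L R P c k j) = false} →
            w ∈ R ∧ w ∉ MEN_L R P c k j := by
          intro w hw
          exact ⟨hw.1, of_decide_eq_false hw.2⟩
        refine DP.Con.induct hcon (fun z => z ∈ MEN_A R P c k j) ?_ ?_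
        · obtain ⟨huR, huL⟩ := hnot u (DP.Con.mem_left hcon)
          by_contra huA
          by_cases hcu : c u = k
          · exact huL ⟨huR, hcu, huA, Or.inl hPu⟩
          · apply huA
            refine ⟨{u}, u, ∅, ?_, hPu, DP.Con.refl (Set.mem_singleton _), ?_, ?_⟩
            · intro w hw
              rw [Set.mem_singleton_iff.mp hw]
              exact huR
            · rw [Finset.card_empty]
              exact Nat.zero_le _
            · intro w hw hwc
              rw [Set.mem_singleton_iff.mp hw] at hwc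
              exact absurd hwc hcu
        · intro x y _ hy hadj _ hxA
          obtain ⟨hyR, hyL⟩ := hnot y hy
          show y ∈ MEN_A R P c k j
          by_contra hyA
          by_cases hcy : c y = k
          · exact hyL ⟨hyR, hcy, hyA, Or.inr ⟨x, hxA, hadj⟩⟩
          · exact hyA (MEN_step0 R P c k j x y hxA hadj hyR hcy)
      · refine ⟨u, v, ⟨hPu, hQv⟩, DP.Con.mono ?_ hcon⟩
        intro w hw
        have hwL : w ∈ MEN_L R P c k j := of_decide_eq_true hw.2
        exact ⟨⟨hw.1, hwL⟩, hwL.2.1⟩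
    · intro i _ j _ hij
      rcases lt_or_gt_of_ne hij with h | h
      · exact MEN_bdis R P c k i j h
      · exact (MEN_bdis R P c k j i h).symm

theorem MEN (hx : DP.HX_stmt) : MEN_stmt := by
  intro o β k a b d e K hab hde
  cases o with
  | true =>
    have h := MEN_gen (rect a b d e) (fun u => u.1 = a) (fun v => v.1 = b) (fun u => u.2 = d)
      (fun v => v.2 = e) (col β) k K (fun c' => by
        rcases hx c' false a b d e hab hde with ⟨u, v, h1, h2, h3⟩ | ⟨u, v, h1, h2, h3⟩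
        · exact Or.inl ⟨u, v, h1, h2, h3⟩
        · exact Or.inr ⟨u, v, h1, h2, h3⟩)
    rcases h with ⟨W, u, v, h1, h2, h3, B, h4, h5⟩ | ⟨L, h1, h2⟩
    · left
      exact ⟨W, u, v, h1, h2, h3, B, h4, h5⟩
    · right
      exact ⟨L, fun i hi => h1 i hi, h2⟩
  | false =>
    have h := MEN_gen (rect a b d e) (fun u => u.2 = d) (fun v => v.2 = e) (fun u => u.1 = a)
      (fun v => v.1 = b) (col β) k K (fun c' => by
        rcases hx c' true a b d e hab hde with ⟨u, v, h1, h2, h3⟩ | ⟨u, v, h1, h2, h3⟩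
        · exact Or.inr ⟨u, v, h1, h2, h3⟩
        · exact Or.inl ⟨u, v, h1, h2, h3⟩)
    rcases h with ⟨W, u, v, h1, h2, h3, B, h4, h5⟩ | ⟨L, h1, h2⟩
    · left
      exact ⟨W, u, v, h1, h2, h3, B, h4, h5⟩
    · right
      exact ⟨L, fun i hi => h1 i hi, h2⟩

end TP.TW
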